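import Pool.Agent.Lib.MP_688fd0_co.TE.Iface3

/-!
# Module STAGE: a good outcome of the fields
-/

namespace Pool.Agent.Lib.MP_688fd0_co.TE.H97

universe u v w

theorem isPr_piW {ι : Type*} [Fintype ι] [DecidableEq ι] {α : ι → Type*} [∀ i, Fintype (α i)]
    (μ : ∀ i, α i → ℝ) (h : ∀ i, IsPr (μ i)) : IsPr (piW μ) where
  nn ω := Finset.prod_nonneg fun i _ => (h i).nn _
  one := by
    unfold piW
    rw [← Fintype.piFinset_univ, ← Finset.prod_univ_sum]
    exact Finset.prod_eq_one fun i _ => (h i).one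

theorem isPr_optW {Val : Type*} [Fintype Val] (p : Val → ℝ) (h0 : ∀ e, 0 ≤ p e)
    (h1 : ∑ e, p e ≤ 1) : IsPr (optW p) where
  nn ω := by
    cases ω with
    | none => unfold optW; linarith
    | some e => exact h0 e
  one := by
    rw [Fintype.sum_option]
    simp only [optW]
    ring

section basic

variable {Ω : Type*} [Fintype Ω] (μ : Ω → ℝ)

theorem pr_nonneg (h : ∀ ω, 0 ≤ μ ω) (E : Ω → Prop) : 0 ≤ Pr μ E :=
  Finset.sum_nonneg fun ω _ => mul_nonneg (h ω) (ind_nonneg _)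

theorem pr_mono (h : ∀ ω, 0 ≤ μ ω) (E F : Ω → Prop) (hEF : ∀ ω, E ω → F ω) :
    Pr μ E ≤ Pr μ F :=
  Finset.sum_le_sum fun ω _ => mul_le_mul_of_nonneg_left (ind_mono (hEF ω)) (h ω)

theorem pr_or (h : ∀ ω, 0 ≤ μ ω) (E F : Ω → Prop) :
    Pr μ (fun ω => E ω ∨ F ω) ≤ Pr μ E + Pr μ F := by
  unfold Pr
  rw [← Finset.sum_add_distrib]
  refine Finset.sum_le_sum fun ω _ => ?_
  rw [← mul_add]
  refine mul_le_mul_of_nonneg_left ?_ (h ω)
  by_cases hE : E ω
  · rw [ind_of hE, ind_of (Or.inl hE)]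
    have := ind_nonneg (F ω)
    linarith
  · by_cases hF : F ω
    · rw [ind_of hF, ind_of (Or.inr hF)]
      have := ind_nonneg (E ω)
      linarith
    · rw [ind_not hE, ind_not hF, ind_not (not_or.2 ⟨hE, hF⟩)]
      norm_num

theorem pr_exists (h : ∀ ω, 0 ≤ μ ω) {κ : Type*} [Fintype κ] (E : κ → Ω → Prop) :
    Pr μ (fun ω => ∃ i, E i ω) ≤ ∑ i, Pr μ (E i) := by
  unfold Pr
  rw [Finset.sum_comm]
  refine Finset.sum_le_sum fun ω _ => ?_
  rw [← Finset.mul_sum]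
  refine mul_le_mul_of_nonneg_left ?_ (h ω)
  by_cases hE : ∃ i, E i ω
  · obtain ⟨i, hi⟩ := hE
    rw [ind_of ⟨i, hi⟩, ← ind_of hi]
    exact Finset.single_le_sum (f := fun j => ind (E j ω)) (fun j _ => ind_nonneg _)
      (Finset.mem_univ i)
  · rw [ind_not hE]
    exact Finset.sum_nonneg fun j _ => ind_nonneg _

theorem pr_good (h : IsPr μ) (E : Ω → Prop) (hE : Pr μ E < 1) : ∃ ω, 0 < μ ω ∧ ¬ E ω := by
  by_contra hcon
  push Not at hcon
  have : Pr μ E = 1 := by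
    rw [← h.one]
    refine Finset.sum_congr rfl fun ω _ => ?_
    rcases (h.nn ω).eq_or_lt with h0 | h0
    · rw [← h0, zero_mul]
    · rw [ind_of (hcon ω h0), mul_one]
  linarith

theorem pr_exists_le (h : ∀ ω, 0 ≤ μ ω) {κ : Type*} [Fintype κ] (E : κ → Ω → Prop) (p : ℝ)
    (hp : ∀ i, Pr μ (E i) ≤ p) : Pr μ (fun ω => ∃ i, E i ω) ≤ Fintype.card κ * p := by
  refine (pr_exists μ h E).trans ?_
  calc ∑ i, Pr μ (E i) ≤ ∑ _i : κ, p := Finset.sum_le_sum fun i _ => hp i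
    _ = Fintype.card κ * p := by rw [Finset.sum_const, nsmul_eq_mul]; rfl

end basic

theorem num1 (N : ℝ) (hN : 10 ^ 6 ≤ N) :
    N ^ 3 * (1 / N ^ 14) + (N ^ 2 * (1 / N ^ 14) + N ^ 7 * (1 / N ^ 40)) < 1 := by
  have h0 : 0 < N := by linarith [show (0 : ℝ) < 10 ^ 6 by norm_num]
  have h1 : 1 ≤ N := by linarith [show (1 : ℝ) ≤ 10 ^ 6 by norm_num]
  have e1 : N ^ 3 * (1 / N ^ 14) = 1 / N ^ 11 := by field_simp
  have e2 : N ^ 2 * (1 / N ^ 14) = 1 / N ^ 12 := by field_simp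
  have e3 : N ^ 7 * (1 / N ^ 40) = 1 / N ^ 33 := by field_simp
  have key : ∀ k : ℕ, 1 ≤ k → 1 / N ^ k ≤ 1 / 10 ^ 6 := by
    intro k hk
    refine one_div_le_one_div_of_le (by norm_num) (hN.trans ?_)
    calc N = N ^ 1 := (pow_one N).symm
      _ ≤ N ^ k := pow_le_pow_right₀ h1 hk
  rw [e1, e2, e3]
  have k1 := key 11 (by norm_num)
  have k2 := key 12 (by norm_num)
  have k3 := key 33 (by norm_num)
  have : (1 : ℝ) / 10 ^ 6 = 0.000001 := by norm_num
  rw [this] at k1 k2 k3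
  linarith

/-- Module STAGE. -/
theorem stage (hLow : LOW_S.{u, v}) (hMass : MASS_S.{u, v}) (hD : LOWD_S.{u, v})
    (hU : UPD_S.{0, max u v}) : STAGE_S.{u, v, w} := by
  intro V Val _ _ _ a κ _ _ M X q L0 r0 T W PP P0 ex0 hP hex hκ hNH hSB hPH ι _ h S hι hh hS hpt
  set N : ℝ := (Fintype.card V : ℝ) with hNdef
  have i0 : κ := Classical.arbitrary κ
  -- the common law
  have hlaw : ∀ i, (M i).law = (M i0).law := by
    intro i
    unfold LM.law
    rw [hP i, hP i0]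
  have hpr0 : IsPr (M i0).law := by
    unfold LM.law
    exact isPr_piW _ fun _ => isPr_piW _ fun u => isPr_optW _ ((M i0).hP0 u) ((M i0).hP1 u)
  have hprT : IsPr (piW (fun _ : Fin T => (M i0).law)) := isPr_piW _ fun _ => hpr0
  -- numerics
  have hX1 : (10 ^ 6 : ℝ) ≤ X := (hNH i0).X1
  have hX1' : (1 : ℝ) ≤ X := le_trans (by norm_num) hX1
  have hX0 : 0 < X := by linarith
  have hbX : ∀ i, X ^ 200000 ≤ (M i).b := fun i => (hNH i).bX
  have hNX : X ≤ N := by
    calc X = X ^ 1 := (pow_one X).symm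
      _ ≤ X ^ 200000 := pow_le_pow_right₀ hX1' (by norm_num)
      _ ≤ (M i0).b := hbX i0
      _ ≤ N := (hNH i0).bn
  have hN6 : (10 ^ 6 : ℝ) ≤ N := hX1.trans hNX
  have hN0 : 0 < N := lt_of_lt_of_le (by norm_num) hN6
  have hN1 : (1 : ℝ) ≤ N := le_trans (by norm_num) hN6
  have hT1 : (1 : ℝ) ≤ T := by exact_mod_cast (hNH i0).T1
  have hTT : (10 ^ 6 * T : ℝ) ^ 2 ≤ X :=
    (pow_le_pow_right₀ (by nlinarith) (by norm_num)).trans (hNH i0).TX
  have haa : (10 ^ 6 * (a + 1) : ℝ) ^ 2 ≤ X := by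
    have ha0 : (0 : ℝ) ≤ a := Nat.cast_nonneg a
    exact (pow_le_pow_right₀ (by nlinarith) (by norm_num)).trans (hNH i0).aX
  have hTN : (T : ℝ) ≤ N := by
    refine le_trans ?_ hNX
    refine le_trans ?_ hTT
    nlinarith
  have haT : 4 * (T : ℝ) * a ≤ X := by
    have ha0 : (0 : ℝ) ≤ a := Nat.cast_nonneg a
    nlinarith [sq_nonneg ((10 ^ 6 * T : ℝ) - 10 ^ 6 * (a + 1))]
  -- the bad events
  let E1 : κ × V × V → (Fin T → Fld a V Val) → Prop := fun p ω =>
    PP p.1 p.2.1 p.2.2 ∧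
      ∀ t, (M p.1).Zg ω (W p.1) (X ^ 5 * q) t p.2.1 p.2.2 < (M p.1).fk 0 a p.2.1 p.2.2 / 4
  let E2 : κ × Fin T → (Fin T → Fld a V Val) → Prop := fun p ω => ¬ (M p.1).massOK X (ω p.2)
  let E3 : ι × κ → (Fin T → Fld a V Val) → Prop := fun p ω =>
    X * (M p.2).pt * S p.1 ≤ ∑ t, (M p.2).tw (h p.1) (ω t)
  have b1 : ∀ p, Pr (piW (fun _ : Fin T => (M i0).law)) (E1 p) ≤ 1 / N ^ 14 := by
    rintro ⟨i, x, y⟩
    by_cases hp : PP i x y
    · have h1 := hLow V Val a (M i) X q L0 r0 T (W i) x y (hNH i) (hSB i) (hPH i x y hp)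
      rw [hlaw i] at h1
      refine le_trans (pr_mono _ hprT.nn _ _ ?_) h1
      intro ω hω
      exact hω.2
    · have h1 : Pr (piW (fun _ : Fin T => (M i0).law)) (E1 (i, x, y)) = 0 :=
        Finset.sum_eq_zero fun ω _ => by
          rw [ind_not (fun hω : E1 (i, x, y) ω => hp hω.1), mul_zero]
      rw [h1]
      positivity
  have b2 : ∀ p, Pr (piW (fun _ : Fin T => (M i0).law)) (E2 p) ≤ 1 / N ^ 14 := by
    rintro ⟨i, t⟩
    refine hU.2 (Fin T) (fun _ => Fld a V Val) (fun _ => (M i0).law) (fun _ => hpr0) _ t _ ?_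
    intro ω
    have h1 := hMass V Val a (M i) X q r0 T (hNH i)
    rw [hlaw i] at h1
    refine le_trans (pr_mono _ hpr0.nn _ _ ?_) h1
    intro c hc
    change ¬ (M i).massOK X (Function.update ω t c t) at hc
    rw [Function.update_self] at hc
    exact hc
  have b3 : ∀ p, Pr (piW (fun _ : Fin T => (M i0).law)) (E3 p) ≤ 1 / N ^ 40 := by
    rintro ⟨i, j⟩
    have hb0 : 0 < (M j).b := lt_of_lt_of_le one_pos (M j).hb
    have hpt0 : 0 < (M j).pt := lt_of_lt_of_le (by positivity) (hpt j)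
    have hSi := hS i
    have hS0 : 0 < S i := lt_of_lt_of_le one_pos hSi.2
    have h1 := hD V Val a (M j) T (h i) (S i) (X ^ 3 / (M j).b) (X * (M j).pt * S i / 2)
      (fun v => (hh i v).1) (fun v => (hh i v).2 j) (by positivity) (by positivity) hSi.1 (by
        have : 0 ≤ (M j).pt * S i := by positivity
        nlinarith)
    rw [hlaw j] at h1
    have h2 : ∀ ω : Fin T → Fld a V Val,
        (2 * (X * (M j).pt * S i / 2) ≤ ∑ t, (M j).tw (h i) (ω t)) ↔ E3 (i, j) ω := by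
      intro ω
      change _ ↔ X * (M j).pt * S i ≤ ∑ t, (M j).tw (h i) (ω t)
      rw [mul_div_cancel₀ _ (two_ne_zero)]
    have h3 : Pr (piW (fun _ : Fin T => (M i0).law)) (E3 (i, j)) ≤
        Real.exp (-(X * (M j).pt * S i / 2 / (8 * (X ^ 3 / (M j).b)))) :=
      le_trans (pr_mono _ hprT.nn _ _ fun ω hω => (h2 ω).2 hω) h1
    refine h3.trans ?_
    have h4 : X ≤ X * (M j).pt * S i / 2 / (8 * (X ^ 3 / (M j).b)) := by
      have e : X * (M j).pt * S i / 2 / (8 * (X ^ 3 / (M j).b)) =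
          (M j).pt * S i * (M j).b / (16 * X ^ 2) := by
        field_simp
        ring
      rw [e, le_div_iff₀ (by positivity)]
      have h5 : 1 / X ^ 4000 * 1 * X ^ 200000 ≤ (M j).pt * S i * (M j).b :=
        mul_le_mul (mul_le_mul (hpt j) hSi.2 (by norm_num) hpt0.le) (hbX j) (by positivity)
          (by positivity)
      have h6 : 1 / X ^ 4000 * 1 * X ^ 200000 = X ^ 196000 := by
        rw [mul_one, one_div_mul_eq_div, div_eq_iff (by positivity), ← pow_add]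
      rw [h6] at h5
      refine le_trans ?_ h5
      have h7 : (16 : ℝ) ≤ X := le_trans (by norm_num) hX1
      calc X * (16 * X ^ 2) ≤ X * (X * X ^ 2) := by gcongr
        _ = X ^ 4 := by ring
        _ ≤ X ^ 196000 := pow_le_pow_right₀ hX1' (by norm_num)
    have h8 := (hNH i0).en _ h4
    rw [le_div_iff₀ (by positivity)]
    exact h8
  have bad : Pr (piW (fun _ : Fin T => (M i0).law))
      (fun ω => (∃ p, E1 p ω) ∨ ((∃ p, E2 p ω) ∨ (∃ p, E3 p ω))) < 1 := by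
    refine lt_of_le_of_lt (pr_or _ hprT.nn _ _) ?_
    refine lt_of_le_of_lt (add_le_add (pr_exists_le _ hprT.nn E1 _ b1) (pr_or _ hprT.nn _ _)) ?_
    refine lt_of_le_of_lt (add_le_add le_rfl (add_le_add (pr_exists_le _ hprT.nn E2 _ b2)
      (pr_exists_le _ hprT.nn E3 _ b3))) ?_
    refine lt_of_le_of_lt ?_ (num1 N hN6)
    have c1 : ((Fintype.card (κ × V × V) : ℕ) : ℝ) ≤ N ^ 3 := by
      rw [Fintype.card_prod, Fintype.card_prod]
      push_cast
      rw [← hNdef]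
      calc (Fintype.card κ : ℝ) * (N * N) ≤ N * (N * N) := by gcongr
        _ = N ^ 3 := by ring
    have c2 : ((Fintype.card (κ × Fin T) : ℕ) : ℝ) ≤ N ^ 2 := by
      rw [Fintype.card_prod, Fintype.card_fin]
      push_cast
      calc (Fintype.card κ : ℝ) * T ≤ N * N := by gcongr
        _ = N ^ 2 := by ring
    have c3 : ((Fintype.card (ι × κ) : ℕ) : ℝ) ≤ N ^ 7 := by
      rw [Fintype.card_prod]
      push_cast
      calc (Fintype.card ι : ℝ) * Fintype.card κ ≤ N ^ 6 * N := by gcongr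
        _ = N ^ 7 := by ring
    gcongr
  obtain ⟨ω, hω, hgood⟩ := pr_good _ hprT _ bad
  rw [not_or, not_or, not_exists, not_exists, not_exists] at hgood
  obtain ⟨g1, g2, g3⟩ := hgood
  refine ⟨ω, ?_, ?_, ?_, ?_⟩
  · intro t j u e he
    unfold val at he
    split_ifs at he with hj
    have h1 : (M i0).law (ω t) ≠ 0 := by
      intro h0
      exact hω.ne' (Finset.prod_eq_zero (Finset.mem_univ t) h0)
    have h2 : piW (fun u : V => optW ((M i0).P u)) (ω t ⟨j, hj⟩) ≠ 0 := by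
      intro h0
      exact h1 (Finset.prod_eq_zero (Finset.mem_univ (⟨j, hj⟩ : Fin a)) h0)
    have h3 : optW ((M i0).P u) (ω t ⟨j, hj⟩ u) ≠ 0 := by
      intro h0
      exact h2 (Finset.prod_eq_zero (Finset.mem_univ u) h0)
    rw [he, hP i0] at h3
    exact h3
  · intro i x y hp
    have h1 := g1 (i, x, y)
    by_contra hcon
    push Not at hcon
    exact h1 ⟨hp, hcon⟩
  · intro i t
    exact not_not.1 (g2 (i, t))
  · intro i j
    exact (not_le.1 (g3 (i, j))).le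

end Pool.Agent.Lib.MP_688fd0_co.TE.H97
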